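import Mathlib
import Pool.Agent.K7.H10.TR.NotBox
import Pool.Agent.K7.H10.TR.Strands

set_option autoImplicit false

/-!
# MP_df5a96_ag: Tate resolutions with a double complex structure, negative answer

For every field `K`, the structure sheaf of the subscheme `Spec K[ε]` of `ℙ¹ × ℙ¹`, embedded by
`([1 : ε], [1 : ε])`, has a Tate resolution with a double complex structure, and it is not a direct
sum of box products.
-/

universe u

namespace Pool.Agent.Results.MP_df5a96_ag.DiagonalTangentVector

open Pool.Agent.K7.H10.TR

/-- Over every field there is a coherent sheaf on `ℙ¹ × ℙ¹` whose Tate resolution has a double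
complex structure, but which is not isomorphic to a direct sum of box products. -/
theorem result : ∀ (K : Type u) [Field K], ∃ (F : BMod K) (T : FreeComplex K),
    F.Coherent ∧ T.IsTateResolutionOf F ∧ T.HasDoubleStructure ∧
      ∀ (J : Type u) (P Q : J → GMod K), ¬ F.IsSumOfBoxProducts P Q := by
  intro K _
  exact ⟨FZ K, TT K, coherent, ⟨minimal, isTate, monad⟩, hasDoubleStructure, not_sum⟩

end Pool.Agent.Results.MP_df5a96_ag.DiagonalTangentVector
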